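import Pool.Agent.Lib.H47G5.Cv

/-!
# H57G5, file E: a 2-connected graph with all degrees two is one cycle (chunk E of D5c, MP_33911d)
-/

set_option autoImplicit false

namespace H57G5

open Finset H98M LD H85TF

variable {V : Type*} [Fintype V] [DecidableEq V]

/-- CHUNK E. -/
theorem oneCyc_of_deg2 {E : Finset (Sym2 V)} {Y : Finset V} (hT : TCY E Y) (h2 : ∀ v ∈ Y, dg E v = 2) :
    H47G5.OneCyc E Y := by
  have hz : ∀ v, v ∉ Y → dg E v = 0 := by
    intro v hv
    unfold dg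
    rw [card_eq_zero, filter_eq_empty_iff]
    exact fun e he hve => hv (hT.sub e he v hve)
  have hY : ∀ v, dg E v ≠ 0 → v ∈ Y := fun v h => by
    by_contra h1
    exact h (hz v h1)
  refine ⟨E, Subset.rfl, ⟨fun v => ?_, fun T hTc x hxT hx y hy => ?_⟩, h2⟩
  · by_cases hv : v ∈ Y
    · exact Or.inr (h2 v hv)
    · exact Or.inl (hz v hv)
  · by_contra hyT
    refine hT.conn ⟨Y ∩ T, Y \ T, ⟨x, mem_inter.2 ⟨hY x hx, hxT⟩⟩, ⟨y, mem_sdiff.2 ⟨hY y hy, hyT⟩⟩, ?_, ?_, ?_⟩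
    · exact disjoint_left.2 fun v h1 h3 => (mem_sdiff.1 h3).2 (mem_inter.1 h1).2
    · ext v
      simp only [mem_union, mem_inter, mem_sdiff]
      tauto
    · intro a ha b hb hab
      exact (mem_sdiff.1 hb).2 (hTc a (mem_inter.1 ha).2 b hab)

end H57G5
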